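import Pool.Agent.Helper93.RC.Spec

/-!
# Module P0: the product measure on graphs
-/

namespace Pool.Agent.Helper93.RC.P0

open scoped Classical

/-! ### Product spaces `E → Bool` -/

/-- weight of a bit -/
noncomputable def pb (p : ℝ) (b : Bool) : ℝ := if b then p else 1 - p

theorem sum_pb (p : ℝ) : ∑ b, pb p b = 1 := by
  simp [pb]

/-- expectation on the product space -/
noncomputable def EX {E : Type*} [Fintype E] (p : ℝ) (F : (E → Bool) → ℝ) : ℝ :=
  ∑ x : E → Bool, (∏ e, pb p (x e)) * F x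

theorem EX_prod {E : Type*} [Fintype E] (p : ℝ) (g : E → Bool → ℝ) :
    EX p (fun x : E → Bool => ∏ e, g e (x e)) = ∏ e, ∑ b, pb p b * g e b := by
  unfold EX
  rw [Finset.prod_univ_sum]
  rw [Fintype.piFinset_univ]
  refine Finset.sum_congr rfl fun x _ => ?_
  rw [Finset.prod_mul_distrib]

theorem EX_one {E : Type*} [Fintype E] (p : ℝ) : EX p (fun _ : E → Bool => 1) = 1 := by
  have := EX_prod (E := E) p (fun _ _ => 1)
  simp only [Finset.prod_const_one, mul_one, sum_pb] at this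
  exact this

/-- Fubini for the splitting of `E` by a predicate -/
theorem EX_split {E : Type*} [Fintype E] (p : ℝ) (P : E → Prop)
    (F : (E → Bool) → ℝ) : EX p F =
      EX p (fun y : {e // P e} → Bool => EX p (fun z : {e // ¬ P e} → Bool =>
        F (fun e => if h : P e then y ⟨e, h⟩ else z ⟨e, h⟩))) := by
  unfold EX
  have h1 : ∀ y z, (Equiv.piEquivPiSubtypeProd P (fun _ : E => Bool)).symm (y, z) =
      fun e => if h : P e then y ⟨e, h⟩ else z ⟨e, h⟩ := by
    intro y z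
    funext e
    simp [Equiv.piEquivPiSubtypeProd]
  rw [← Fintype.sum_equiv (Equiv.piEquivPiSubtypeProd P (fun _ : E => Bool)).symm
    (fun yz => (∏ e, pb p ((Equiv.piEquivPiSubtypeProd P (fun _ : E => Bool)).symm yz e)) *
      F ((Equiv.piEquivPiSubtypeProd P (fun _ : E => Bool)).symm yz)) _ (fun _ => rfl),
    Fintype.sum_prod_type]
  refine Finset.sum_congr (by ext; simp) fun y _ => ?_
  rw [Finset.mul_sum]
  refine Finset.sum_congr (by ext; simp) fun z _ => ?_
  rw [← mul_assoc, h1]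
  congr 1
  rw [← Fintype.prod_subtype_mul_prod_subtype P]
  congr 1
  · refine Finset.prod_congr rfl fun e _ => ?_
    beta_reduce
    rw [dif_pos e.2]
  · refine Finset.prod_congr rfl fun e _ => ?_
    beta_reduce
    rw [dif_neg e.2]

theorem EX_const_mul {E : Type*} [Fintype E] (p c : ℝ) (F : (E → Bool) → ℝ) :
    EX p (fun x => c * F x) = c * EX p F := by
  unfold EX
  rw [Finset.mul_sum]
  refine Finset.sum_congr rfl fun x _ => ?_
  ring

theorem EX_const {E : Type*} [Fintype E] (p c : ℝ) : EX p (fun _ : E → Bool => c) = c := by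
  have := EX_const_mul (E := E) p c (fun _ => 1)
  simpa [EX_one] using this

/-- independence -/
theorem EX_indep {E : Type*} [Fintype E] (p : ℝ) (P : E → Prop) (F H : (E → Bool) → ℝ)
    (hF : ∀ x y : E → Bool, (∀ e, P e → x e = y e) → F x = F y)
    (hH : ∀ x y : E → Bool, (∀ e, ¬ P e → x e = y e) → H x = H y) :
    EX p (fun x => F x * H x) = EX p F * EX p H := by
  let F' : ({e // P e} → Bool) → ℝ := fun y => F (fun e => if h : P e then y ⟨e, h⟩ else false)
  let H' : ({e // ¬ P e} → Bool) → ℝ :=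
    fun z => H (fun e => if h : P e then false else z ⟨e, h⟩)
  have e1 : ∀ (y : {e // P e} → Bool) (z : {e // ¬ P e} → Bool),
      F (fun e => if h : P e then y ⟨e, h⟩ else z ⟨e, h⟩) = F' y := by
    intro y z
    apply hF
    intro e he
    simp [he]
  have e2 : ∀ (y : {e // P e} → Bool) (z : {e // ¬ P e} → Bool),
      H (fun e => if h : P e then y ⟨e, h⟩ else z ⟨e, h⟩) = H' z := by
    intro y z
    apply hH
    intro e he
    simp [he]
  have h1 : EX p (fun x => F x * H x) = EX p F' * EX p H' := by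
    rw [EX_split p P]
    simp only [e1, e2]
    simp only [EX_const_mul]
    have : (fun y => F' y * EX p H') = fun y => EX p H' * F' y := by
      funext y; ring
    rw [this, EX_const_mul]
    ring
  have h2 : EX p F = EX p F' := by
    rw [EX_split p P]
    simp only [e1, EX_const]
  have h3 : EX p H = EX p H' := by
    rw [EX_split p P]
    simp only [e2, EX_const]
  rw [h1, h2, h3]

/-! ### Graphs -/

/-- the pairs of vertices -/
abbrev Pr (n : ℕ) : Type := {e : Sym2 (Fin n) // ¬ e.IsDiag}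

/-- the graph of a bit vector -/
def gr {n : ℕ} (x : Pr n → Bool) : SimpleGraph (Fin n) :=
  SimpleGraph.fromEdgeSet {e | ∃ h : ¬ e.IsDiag, x ⟨e, h⟩ = true}

theorem mem_gr {n : ℕ} (x : Pr n → Bool) (e : Sym2 (Fin n)) :
    e ∈ (gr x).edgeSet ↔ ∃ h : ¬ e.IsDiag, x ⟨e, h⟩ = true := by
  unfold gr
  rw [SimpleGraph.edgeSet_fromEdgeSet]
  constructor
  · rintro ⟨h, _⟩; exact h
  · rintro ⟨h, h2⟩; exact ⟨⟨h, h2⟩, h⟩

/-- bit vectors and graphs -/
noncomputable def grE (n : ℕ) : (Pr n → Bool) ≃ SimpleGraph (Fin n) where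
  toFun := gr
  invFun G := fun e => decide (e.1 ∈ G.edgeSet)
  left_inv := by
    intro x
    funext e
    have := mem_gr x e.1
    by_cases h : x e = true
    · have h2 : e.1 ∈ (gr x).edgeSet := this.2 ⟨e.2, h⟩
      simp only [h2, decide_true, h]
    · have h2 : e.1 ∉ (gr x).edgeSet := by
        intro h3
        obtain ⟨h4, h5⟩ := this.1 h3
        exact h h5
      simp only [h2, decide_false]
      simpa using h
  right_inv := by
    intro G
    apply SimpleGraph.edgeSet_injective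
    ext e
    rw [mem_gr]
    constructor
    · rintro ⟨h, h2⟩
      simpa using h2
    · intro h
      exact ⟨SimpleGraph.not_isDiag_of_mem_edgeSet G h, by simpa using h⟩

theorem card_Pr (n : ℕ) : Fintype.card (Pr n) = n.choose 2 := by
  have := Sym2.card_subtype_not_diag (α := Fin n)
  rw [Fintype.card_fin] at this
  rw [← this]

theorem wt_gr (n : ℕ) (p : ℝ) (x : Pr n → Bool) : wt n p (gr x) = ∏ e, pb p (x e) := by
  unfold wt pb
  have h1 : (gr x).edgeSet.ncard = (Finset.univ.filter fun e : Pr n => x e = true).card := by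
    rw [← Set.ncard_coe_finset, ← Set.ncard_image_of_injective _ Subtype.val_injective]
    congr 1
    ext e
    rw [mem_gr]
    simp
  rw [Finset.prod_ite, Finset.prod_const, Finset.prod_const, h1]
  congr 2
  have h2 := Finset.card_filter_add_card_filter_not (s := (Finset.univ : Finset (Pr n)))
    (fun e => x e = true)
  rw [Finset.card_univ, card_Pr] at h2
  omega

theorem Ex_eq (n : ℕ) (p : ℝ) (f : SimpleGraph (Fin n) → ℝ) :
    Ex n p f = EX p (fun x : Pr n → Bool => f (gr x)) := by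
  unfold Ex EX
  have h := Fintype.sum_equiv (grE n) (fun x => (∏ e, pb p (x e)) * f (gr x))
    (fun G => wt n p G * f G) (fun x => by
      show _ = wt n p (gr x) * f (gr x)
      rw [wt_gr])
  rw [← h]
  exact Finset.sum_congr (by ext; simp) (fun _ _ => rfl)

/-- P0a -/
theorem st_P0a : ST_P0a := by
  intro n p
  rw [Ex_eq]
  exact EX_one p

theorem Ex_indep {n : ℕ} (p : ℝ) (f g : SimpleGraph (Fin n) → ℝ) (D D' : Set (Sym2 (Fin n)))
    (hf : DepOn f D) (hg : DepOn g D') (hD : Disjoint D D') :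
    Ex n p (fun G => f G * g G) = Ex n p f * Ex n p g := by
  rw [Ex_eq, Ex_eq, Ex_eq]
  apply EX_indep p (fun e : Pr n => e.1 ∈ D)
  · intro x y h
    apply hf
    intro e he
    rw [mem_gr, mem_gr]
    constructor
    · rintro ⟨h1, h2⟩; exact ⟨h1, (h ⟨e, h1⟩ he) ▸ h2⟩
    · rintro ⟨h1, h2⟩; exact ⟨h1, (h ⟨e, h1⟩ he).symm ▸ h2⟩
  · intro x y h
    apply hg
    intro e he
    have heD : e ∉ D := fun h2 => Set.disjoint_left.1 hD h2 he
    rw [mem_gr, mem_gr]
    constructor
    · rintro ⟨h1, h2⟩; exact ⟨h1, (h ⟨e, h1⟩ heD) ▸ h2⟩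
    · rintro ⟨h1, h2⟩; exact ⟨h1, (h ⟨e, h1⟩ heD).symm ▸ h2⟩

/-- P0b -/
theorem st_P0b : ST_P0b := by
  intro n p ι s f D
  induction s using Finset.induction_on with
  | empty =>
    intro _ _
    simpa using st_P0a n p
  | insert a s ha ih =>
    intro h1 h2
    have hs := ih (fun b hb => h1 b (Finset.mem_insert_of_mem hb))
      (fun b hb c hc hbc => h2 b (Finset.mem_insert_of_mem hb) c (Finset.mem_insert_of_mem hc) hbc)
    rw [Finset.prod_insert ha, ← hs]
    have : (fun G => ∏ b ∈ insert a s, f b G) = fun G => f a G * ∏ b ∈ s, f b G := by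
      funext G
      rw [Finset.prod_insert ha]
    rw [this]
    refine Ex_indep p (f a) (fun G => ∏ b ∈ s, f b G) (D a) (⋃ b ∈ s, D b)
      (h1 a (Finset.mem_insert_self _ _)) ?_ ?_
    · intro G G' hG
      refine Finset.prod_congr rfl fun b hb => ?_
      refine h1 b (Finset.mem_insert_of_mem hb) G G' ?_
      intro e he
      exact hG e (Set.mem_biUnion hb he)
    · rw [Set.disjoint_iUnion₂_right]
      intro b hb
      refine h2 a (Finset.mem_insert_self _ _) b (Finset.mem_insert_of_mem hb) ?_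
      rintro rfl
      exact ha hb

/-- pairs in `F` present, pairs in `F'` absent -/
theorem Ex_present_absent (n : ℕ) (p : ℝ) (F F' : Finset (Sym2 (Fin n)))
    (hF : ∀ e ∈ F, ¬ e.IsDiag) (hF' : ∀ e ∈ F', ¬ e.IsDiag) (hd : Disjoint F F') :
    Ex n p (fun G => if (∀ e ∈ F, e ∈ G.edgeSet) ∧ (∀ e ∈ F', e ∉ G.edgeSet) then 1 else 0) =
      p ^ F.card * (1 - p) ^ F'.card := by
  rw [Ex_eq]
  have h1 : (fun x : Pr n → Bool => if (∀ e ∈ F, e ∈ (gr x).edgeSet) ∧
      (∀ e ∈ F', e ∉ (gr x).edgeSet) then (1 : ℝ) else 0) =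
      fun x => ∏ e, (fun (e : Pr n) (b : Bool) => if (e.1 ∈ F → b = true) ∧
        (e.1 ∈ F' → b = false) then (1 : ℝ) else 0) e (x e) := by
    funext x
    by_cases h : (∀ e ∈ F, e ∈ (gr x).edgeSet) ∧ (∀ e ∈ F', e ∉ (gr x).edgeSet)
    · rw [if_pos h]
      symm
      apply Finset.prod_eq_one
      intro e _
      beta_reduce
      rw [if_pos]
      refine ⟨fun he => ?_, fun he => ?_⟩
      · obtain ⟨_, h3⟩ := (mem_gr x e.1).1 (h.1 _ he)
        exact h3
      · by_contra h3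
        exact h.2 _ he ((mem_gr x e.1).2 ⟨e.2, by simpa using h3⟩)
    · rw [if_neg h]
      symm
      rw [not_and_or] at h
      rcases h with h | h
      · push Not at h
        obtain ⟨e, he, h2⟩ := h
        refine Finset.prod_eq_zero (Finset.mem_univ (⟨e, hF e he⟩ : Pr n)) ?_
        beta_reduce
        rw [if_neg]
        rintro ⟨h3, _⟩
        exact h2 ((mem_gr x e).2 ⟨hF e he, h3 he⟩)
      · push Not at h
        obtain ⟨e, he, h2⟩ := h
        refine Finset.prod_eq_zero (Finset.mem_univ (⟨e, hF' e he⟩ : Pr n)) ?_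
        beta_reduce
        rw [if_neg]
        rintro ⟨_, h3⟩
        obtain ⟨_, h4⟩ := (mem_gr x e).1 h2
        rw [h3 he] at h4
        exact absurd h4 (by simp)
  rw [h1]
  rw [EX_prod p (fun (e : Pr n) (b : Bool) => if (e.1 ∈ F → b = true) ∧
        (e.1 ∈ F' → b = false) then (1 : ℝ) else 0)]
  have h2 : ∀ e : Pr n, (∑ b, pb p b * (if (e.1 ∈ F → b = true) ∧
      (e.1 ∈ F' → b = false) then (1 : ℝ) else 0)) =
      (if e.1 ∈ F then p else 1) * (if e.1 ∈ F' then 1 - p else 1) := by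
    intro e
    have hdis : e.1 ∈ F → e.1 ∉ F' := fun h => Finset.disjoint_left.1 hd h
    by_cases a1 : e.1 ∈ F
    · have a2 := hdis a1
      simp [pb, a1, a2]
    · by_cases a2 : e.1 ∈ F'
      · simp [pb, a1, a2]
      · simp [pb, a1, a2]
  rw [Finset.prod_congr rfl fun e _ => h2 e, Finset.prod_mul_distrib]
  congr 1
  · rw [Finset.prod_ite, Finset.prod_const, Finset.prod_const_one, mul_one]
    congr 1
    rw [← Finset.card_map ⟨Subtype.val, Subtype.val_injective⟩]
    congr 1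
    ext e
    simp only [Finset.mem_map, Finset.mem_filter, Finset.mem_univ, true_and,
      Function.Embedding.coeFn_mk]
    constructor
    · rintro ⟨a, h3, rfl⟩; exact h3
    · intro h3; exact ⟨⟨e, hF e h3⟩, h3, rfl⟩
  · rw [Finset.prod_ite, Finset.prod_const, Finset.prod_const_one, mul_one]
    congr 1
    rw [← Finset.card_map ⟨Subtype.val, Subtype.val_injective⟩]
    congr 1
    ext e
    simp only [Finset.mem_map, Finset.mem_filter, Finset.mem_univ, true_and,
      Function.Embedding.coeFn_mk]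
    constructor
    · rintro ⟨a, h3, rfl⟩; exact h3
    · intro h3; exact ⟨⟨e, hF' e h3⟩, h3, rfl⟩

/-- all pairs in `F` present -/
theorem Ex_present (n : ℕ) (p : ℝ) (F : Finset (Sym2 (Fin n))) (hF : ∀ e ∈ F, ¬ e.IsDiag) :
    Ex n p (fun G => if ∀ e ∈ F, e ∈ G.edgeSet then 1 else 0) = p ^ F.card := by
  have := Ex_present_absent n p F ∅ hF (by simp) (by simp)
  simpa using this

/-- all pairs in `F` absent -/
theorem Ex_absent (n : ℕ) (p : ℝ) (F : Finset (Sym2 (Fin n))) (hF : ∀ e ∈ F, ¬ e.IsDiag) :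
    Ex n p (fun G => if ∀ e ∈ F, e ∉ G.edgeSet then 1 else 0) = (1 - p) ^ F.card := by
  have := Ex_present_absent n p ∅ F (by simp) hF (by simp)
  simpa using this

/-- P0c -/
theorem st_P0c : ST_P0c := by
  intro n p e he
  have := Ex_present n p {e} (by simpa using he)
  simpa using this

/-! ### Linearity, monotonicity, Markov, Chebyshev -/

variable {n : ℕ} {p : ℝ}

theorem wt_nonneg (h0 : 0 ≤ p) (h1 : p ≤ 1) (G : SimpleGraph (Fin n)) : 0 ≤ wt n p G :=
  mul_nonneg (pow_nonneg h0 _) (pow_nonneg (by linarith) _)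

theorem gnp_eq (n : ℕ) (p : ℝ) (A : Set (SimpleGraph (Fin n))) :
    gnp n p A = Ex n p (fun G => if G ∈ A then 1 else 0) := by
  unfold gnp Ex wt
  refine Finset.sum_congr rfl fun G _ => ?_
  beta_reduce
  by_cases hA : G ∈ A
  · rw [if_pos hA, if_pos hA, mul_one]
  · rw [if_neg hA, if_neg hA, mul_zero]

theorem Ex_add (f g : SimpleGraph (Fin n) → ℝ) :
    Ex n p (fun G => f G + g G) = Ex n p f + Ex n p g := by
  unfold Ex
  rw [← Finset.sum_add_distrib]
  refine Finset.sum_congr rfl fun G _ => ?_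
  ring

theorem Ex_sub (f g : SimpleGraph (Fin n) → ℝ) :
    Ex n p (fun G => f G - g G) = Ex n p f - Ex n p g := by
  unfold Ex
  rw [← Finset.sum_sub_distrib]
  refine Finset.sum_congr rfl fun G _ => ?_
  ring

theorem Ex_mul_left (c : ℝ) (f : SimpleGraph (Fin n) → ℝ) :
    Ex n p (fun G => c * f G) = c * Ex n p f := by
  unfold Ex
  rw [Finset.mul_sum]
  refine Finset.sum_congr rfl fun G _ => ?_
  ring

theorem Ex_mul_right (c : ℝ) (f : SimpleGraph (Fin n) → ℝ) :
    Ex n p (fun G => f G * c) = Ex n p f * c := by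
  have := Ex_mul_left (p := p) c f
  simp only [mul_comm c] at this
  exact this

theorem Ex_const (c : ℝ) : Ex n p (fun _ => c) = c := by
  have := Ex_mul_left (n := n) (p := p) c (fun _ => 1)
  simpa [st_P0a n p] using this

theorem Ex_sum {ι : Type*} (s : Finset ι) (f : ι → SimpleGraph (Fin n) → ℝ) :
    Ex n p (fun G => ∑ i ∈ s, f i G) = ∑ i ∈ s, Ex n p (f i) := by
  unfold Ex
  rw [Finset.sum_comm]
  refine Finset.sum_congr rfl fun G _ => ?_
  rw [Finset.mul_sum]

theorem Ex_mono (h0 : 0 ≤ p) (h1 : p ≤ 1) {f g : SimpleGraph (Fin n) → ℝ}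
    (h : ∀ G, f G ≤ g G) : Ex n p f ≤ Ex n p g :=
  Finset.sum_le_sum fun G _ => mul_le_mul_of_nonneg_left (h G) (wt_nonneg h0 h1 G)

theorem Ex_nonneg (h0 : 0 ≤ p) (h1 : p ≤ 1) {f : SimpleGraph (Fin n) → ℝ}
    (h : ∀ G, 0 ≤ f G) : 0 ≤ Ex n p f :=
  Finset.sum_nonneg fun G _ => mul_nonneg (wt_nonneg h0 h1 G) (h G)

theorem gnp_nonneg (h0 : 0 ≤ p) (h1 : p ≤ 1) (A : Set (SimpleGraph (Fin n))) :
    0 ≤ gnp n p A := by
  rw [gnp_eq]
  refine Ex_nonneg h0 h1 fun G => ?_
  split_ifs <;> norm_num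

theorem gnp_mono (h0 : 0 ≤ p) (h1 : p ≤ 1) {A B : Set (SimpleGraph (Fin n))} (h : A ⊆ B) :
    gnp n p A ≤ gnp n p B := by
  rw [gnp_eq, gnp_eq]
  refine Ex_mono h0 h1 fun G => ?_
  by_cases hA : G ∈ A
  · simp [hA, h hA]
  · rw [if_neg hA]; split_ifs <;> norm_num

theorem gnp_univ (n : ℕ) (p : ℝ) : gnp n p Set.univ = 1 := by
  rw [gnp_eq]
  simpa using st_P0a n p

theorem gnp_le_one (h0 : 0 ≤ p) (h1 : p ≤ 1) (A : Set (SimpleGraph (Fin n))) :
    gnp n p A ≤ 1 := by
  rw [← gnp_univ n p]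
  exact gnp_mono h0 h1 (Set.subset_univ _)

theorem gnp_compl (A : Set (SimpleGraph (Fin n))) : gnp n p Aᶜ = 1 - gnp n p A := by
  have h : gnp n p A + gnp n p Aᶜ = 1 := by
    rw [gnp_eq n p A, gnp_eq n p Aᶜ, ← Ex_add]
    refine Eq.trans ?_ (st_P0a n p)
    congr 1
    funext G
    by_cases hA : G ∈ A <;> simp [hA]
  linarith

theorem gnp_union_le (h0 : 0 ≤ p) (h1 : p ≤ 1) (A B : Set (SimpleGraph (Fin n))) :
    gnp n p (A ∪ B) ≤ gnp n p A + gnp n p B := by
  rw [gnp_eq, gnp_eq, gnp_eq, ← Ex_add]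
  refine Ex_mono h0 h1 fun G => ?_
  by_cases hA : G ∈ A <;> by_cases hB : G ∈ B <;> simp [hA, hB]

/-- Markov -/
theorem markov (h0 : 0 ≤ p) (h1 : p ≤ 1) {f : SimpleGraph (Fin n) → ℝ} (hf : ∀ G, 0 ≤ f G)
    {a : ℝ} (ha : 0 < a) : gnp n p {G | a ≤ f G} ≤ Ex n p f / a := by
  rw [gnp_eq, le_div_iff₀ ha, ← Ex_mul_right]
  refine Ex_mono h0 h1 fun G => ?_
  by_cases h : a ≤ f G
  · simp [h]
  · simpa [h] using hf G

/-- Markov for events covered by `f ≥ 1` -/
theorem markov_one (h0 : 0 ≤ p) (h1 : p ≤ 1) {f : SimpleGraph (Fin n) → ℝ} (hf : ∀ G, 0 ≤ f G)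
    {A : Set (SimpleGraph (Fin n))} (hA : ∀ G ∈ A, 1 ≤ f G) : gnp n p A ≤ Ex n p f := by
  rw [gnp_eq]
  refine Ex_mono h0 h1 fun G => ?_
  by_cases h : G ∈ A
  · simpa [h] using hA G h
  · simpa [h] using hf G

/-- the variance -/
noncomputable def Var (n : ℕ) (p : ℝ) (f : SimpleGraph (Fin n) → ℝ) : ℝ :=
  Ex n p (fun G => f G ^ 2) - Ex n p f ^ 2

theorem Var_eq (f : SimpleGraph (Fin n) → ℝ) :
    Var n p f = Ex n p (fun G => (f G - Ex n p f) ^ 2) := by
  unfold Var
  have : (fun G => (f G - Ex n p f) ^ 2) =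
      fun G => (f G ^ 2 + (-2 * Ex n p f) * f G) + Ex n p f ^ 2 := by
    funext G; ring
  rw [this, Ex_add, Ex_add, Ex_mul_left, Ex_const]
  ring

/-- Chebyshev: `P(f ≤ c · Ex f) ≤ Var f / ((1 - c) Ex f) ^ 2` -/
theorem chebyshev (h0 : 0 ≤ p) (h1 : p ≤ 1) {f : SimpleGraph (Fin n) → ℝ} {c : ℝ} (hc : c < 1)
    (hf : 0 < Ex n p f) :
    gnp n p {G | f G ≤ c * Ex n p f} ≤ Var n p f / ((1 - c) * Ex n p f) ^ 2 := by
  have hpos : 0 < (1 - c) * Ex n p f := mul_pos (by linarith) hf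
  rw [Var_eq]
  refine le_trans ?_ (markov h0 h1 (f := fun G => (f G - Ex n p f) ^ 2)
    (fun G => sq_nonneg _) (pow_pos hpos 2))
  apply gnp_mono h0 h1
  intro G hG
  simp only [Set.mem_ofPred_eq] at hG ⊢
  have h2 : (1 - c) * Ex n p f ≤ Ex n p f - f G := by linarith
  have h3 := pow_le_pow_left₀ hpos.le h2 2
  calc ((1 - c) * Ex n p f) ^ 2 ≤ (Ex n p f - f G) ^ 2 := h3
    _ = (f G - Ex n p f) ^ 2 := by ring

/-- `P(f = 0) ≤ Var f / (Ex f) ^ 2` -/
theorem chebyshev_zero (h0 : 0 ≤ p) (h1 : p ≤ 1) {f : SimpleGraph (Fin n) → ℝ}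
    (hf : 0 < Ex n p f) : gnp n p {G | f G = 0} ≤ Var n p f / Ex n p f ^ 2 := by
  have := chebyshev h0 h1 (c := 0) (by norm_num) hf
  simp only [zero_mul, sub_zero, one_mul] at this
  refine le_trans (gnp_mono h0 h1 ?_) this
  intro G hG
  exact le_of_eq hG

/-- `P(f ≤ Ex f / 2) ≤ 4 Var f / (Ex f) ^ 2` -/
theorem chebyshev_half (h0 : 0 ≤ p) (h1 : p ≤ 1) {f : SimpleGraph (Fin n) → ℝ}
    (hf : 0 < Ex n p f) :
    gnp n p {G | f G ≤ Ex n p f / 2} ≤ 4 * Var n p f / Ex n p f ^ 2 := by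
  have := chebyshev h0 h1 (c := 1 / 2) (by norm_num) hf
  have e1 : {G | f G ≤ Ex n p f / 2} = {G | f G ≤ 1 / 2 * Ex n p f} := by
    ext G
    simp only [Set.mem_ofPred_eq]
    constructor <;> intro h <;> linarith
  rw [e1]
  refine this.trans (le_of_eq ?_)
  field_simp
  ring

end Pool.Agent.Helper93.RC.P0
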